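import Pool.Agent.Helper14.LK.St
import Pool.Agent.Helper14.LK.Basic

/-!
Module APX of project LK (MP_58b586_gt): on every ball a nearly similar isotropic map is close to an affine map whose
linear part is a near-similarity and nearly isotropic.
-/

set_option autoImplicit false

open MeasureTheory Set Filter
open scoped ContDiff Topology

namespace Pool.Agent.Helper94.LK

open Pool.Agent.Helper14.LK

variable {n : ℕ}

/-- the one-form `½ om (ι x) (Dι(x) u)` -/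
noncomputable def bet (ι : EE n → WW n) (x : EE n) : EE n →L[ℝ] ℝ :=
  (1 / 2 : ℝ) • ((omL n (ι x)).comp (fderiv ℝ ι x))

theorem bet_apply (ι : EE n → WW n) (x u : EE n) : bet ι x u = 1 / 2 * om (ι x) (fderiv ℝ ι x u) := by
  simp [bet]

theorem bet_smooth {ι : EE n → WW n} (hι : ContDiff ℝ ∞ ι) : ContDiff ℝ ∞ (bet ι) := by
  unfold bet
  have h1 : ContDiff ℝ ∞ (fderiv ℝ ι) := hι.fderiv_right (by exact_mod_cast le_refl _)
  have h2 : ContDiff ℝ ∞ (fun x => omL n (ι x)) := (omL n).contDiff.comp hι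
  exact (h2.clm_comp h1).const_smul _

theorem bet_closed {ι : EE n → WW n} (hι : ContDiff ℝ ∞ ι) (hiso : Isotropic ι) (v a b : EE n) :
    fderiv ℝ (bet ι) v a b = fderiv ℝ (bet ι) v b a := by
  have h1 : ContDiff ℝ ∞ (fderiv ℝ ι) := hι.fderiv_right (by exact_mod_cast le_refl _)
  have hd1 : HasFDerivAt ι (fderiv ℝ ι v) v := (hι.differentiable (by simp) v).hasFDerivAt
  have hd2 : HasFDerivAt (fderiv ℝ ι) (fderiv ℝ (fderiv ℝ ι) v) v := (h1.differentiable (by simp) v).hasFDerivAt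
  have hd3 : HasFDerivAt (fun x => omL n (ι x)) ((omL n).comp (fderiv ℝ ι v)) v :=
    (omL n).hasFDerivAt.comp v hd1
  have hb : HasFDerivAt (bet ι) _ v := (hd3.clm_comp hd2).const_smul (1 / 2 : ℝ)
  have key : ∀ a b : EE n, fderiv ℝ (bet ι) v a b =
      1 / 2 * om (fderiv ℝ ι v a) (fderiv ℝ ι v b) + 1 / 2 * om (ι v) (fderiv ℝ (fderiv ℝ ι) v a b) := by
    intro a b
    rw [hb.fderiv]
    simp
    ring
  rw [key, key, hiso v a b, hiso v b a]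
  have hs : fderiv ℝ (fderiv ℝ ι) v a b = fderiv ℝ (fderiv ℝ ι) v b a := by
    have h2 : IsSymmSndFDerivAt ℝ ι v := (hι.contDiffAt (x := v)).isSymmSndFDerivAt (by
      simp only [minSmoothness_of_isRCLikeNormedField]
      exact WithTop.coe_le_coe.2 (le_top : (2 : ℕ∞) ≤ ⊤))
    exact h2 a b
  rw [hs]

/-- the area potential -/
theorem potential (hPO0 : StPO0) {ι : EE n → WW n} (hι : ContDiff ℝ ∞ ι) (hiso : Isotropic ι) :
    ∃ h : EE n → ℝ, ContDiff ℝ ∞ h ∧ ∀ x u, fderiv ℝ h x u = 1 / 2 * om (ι x) (fderiv ℝ ι x u) := by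
  obtain ⟨h, hh, hd⟩ := hPO0 (EE n) (fun _ => bet ι) ((bet_smooth hι).comp contDiff_snd)
    (fun _ v a b => bet_closed hι hiso v a b)
  refine ⟨h 0, hh.comp (contDiff_const.prodMk contDiff_id), fun x u => ?_⟩
  rw [hd 0 x, bet_apply]

/-- the four defects around a quadrilateral -/
theorem quad_sum (A B C D : WW n) (hA hB hC hD : ℝ) :
    (hB - hA - 1 / 2 * om A B) + (hC - hB - 1 / 2 * om B C) + (hD - hC - 1 / 2 * om C D) +
      (hA - hD - 1 / 2 * om D A) = - (1 / 2 * (om (B - A) (C - A) + om (C - A) (D - A))) := by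
  simp only [om_sub_left, om_sub_right, om_self]
  have h1 := om_antisymm A B
  have h2 := om_antisymm A C
  have h3 := om_antisymm A D
  linarith

/-- comparison of the similarity constants of a side and of the big ball -/
theorem rho_le {ε ρ ρ' N L R : ℝ} (hε : 0 < ε) (hε' : ε ≤ 1 / 100) (hρ : 0 < ρ) (hρ' : 0 < ρ') (hR : 0 < R)
    (hL : L = R / 2) (h1 : |N - ρ * L| ≤ ε * ρ * R) (h2 : |N - ρ' * L| ≤ ε * ρ' * (L / 2)) : ρ' ≤ 4 * ρ := by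
  subst hL
  have h3 := (abs_le.1 h1).2
  have h4 := (abs_le.1 h2).1
  have h5 : ρ' * (R / 2) - ε * ρ' * (R / 4) ≤ ρ * (R / 2) + ε * ρ * R := by nlinarith
  have h6 : ε * ρ' * (R / 4) ≤ 1 / 100 * ρ' * (R / 4) := by
    apply mul_le_mul_of_nonneg_right _ (by positivity)
    exact mul_le_mul_of_nonneg_right hε' hρ'.le
  have h7 : ε * ρ * R ≤ 1 / 100 * ρ * R := by
    apply mul_le_mul_of_nonneg_right _ hR.le
    exact mul_le_mul_of_nonneg_right hε' hρ.le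
  have h8 : ρ' * R ≤ 4 * ρ * R := by nlinarith [mul_pos hρ hR, mul_pos hρ' hR]
  exact le_of_mul_le_mul_right h8 hR

/-- the defect of a side of length `R / 2` inside the ball of radius `R` around `x` -/
theorem side {C ε ρ R : ℝ} (hC : 0 < C) {ι : EE n → WW n} {h : EE n → ℝ} (hε : 0 < ε) (hε' : ε ≤ 1 / 100)
    (hY : ∀ (p q : EE n) (ρ : ℝ), p ≠ q → 0 < ρ →
      (∀ a b : EE n, ‖a - (1 / 2 : ℝ) • (p + q)‖ ≤ ‖q - p‖ / 2 →
        ‖b - (1 / 2 : ℝ) • (p + q)‖ ≤ ‖q - p‖ / 2 →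
        |nm (ι a - ι b) - ρ * ‖a - b‖| ≤ ε * ρ * (‖q - p‖ / 2)) →
      |h q - h p - 1 / 2 * om (ι p) (ι q)| ≤ C * Real.sqrt ε * ρ ^ 2 * ‖q - p‖ ^ 2)
    (hN : NearSim ε ι) (hρ : 0 < ρ) (hR : 0 < R) (x : EE n)
    (hb : ∀ a b : EE n, ‖a - x‖ ≤ R → ‖b - x‖ ≤ R → |nm (ι a - ι b) - ρ * ‖a - b‖| ≤ ε * ρ * R)
    (p q : EE n) (hp : ‖p - x‖ ≤ R) (hq : ‖q - x‖ ≤ R) (hpq : ‖q - p‖ = R / 2) :
    |h q - h p - 1 / 2 * om (ι p) (ι q)| ≤ 4 * C * Real.sqrt ε * ρ ^ 2 * R ^ 2 := by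
  have hne : p ≠ q := by
    rintro rfl
    rw [sub_self, norm_zero] at hpq
    linarith
  have hL : 0 < ‖q - p‖ / 2 := by rw [hpq]; linarith
  obtain ⟨ρ', hρ', hs⟩ := hN ((1 / 2 : ℝ) • (p + q)) (‖q - p‖ / 2) hL
  have h1 := hY p q ρ' hne hρ' hs
  have e1 : q - (1 / 2 : ℝ) • (p + q) = (1 / 2 : ℝ) • (q - p) := by module
  have e2 : p - (1 / 2 : ℝ) • (p + q) = (-(1 / 2) : ℝ) • (q - p) := by module
  have n1 : ‖q - (1 / 2 : ℝ) • (p + q)‖ ≤ ‖q - p‖ / 2 := by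
    rw [e1, norm_smul, Real.norm_eq_abs, abs_of_pos (by norm_num)]
    linarith
  have n2 : ‖p - (1 / 2 : ℝ) • (p + q)‖ ≤ ‖q - p‖ / 2 := by
    rw [e2, norm_smul, Real.norm_eq_abs, abs_neg, abs_of_pos (by norm_num)]
    linarith
  have h2 := hs q p n1 n2
  have h3 := hb q p hq hp
  have h4 : ρ' ≤ 4 * ρ := rho_le hε hε' hρ hρ' hR hpq h3 h2
  have h5 : ρ' ^ 2 ≤ 16 * ρ ^ 2 := by nlinarith
  refine h1.trans ?_
  rw [hpq]
  have h6 : 0 ≤ C * Real.sqrt ε := by positivity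
  calc C * Real.sqrt ε * ρ' ^ 2 * (R / 2) ^ 2 ≤ C * Real.sqrt ε * (16 * ρ ^ 2) * (R / 2) ^ 2 := by
        apply mul_le_mul_of_nonneg_right _ (by positivity)
        exact mul_le_mul_of_nonneg_left h5 h6
    _ = 4 * C * Real.sqrt ε * ρ ^ 2 * R ^ 2 := by ring

/-- algebra of the square: `S` is the sum of the two triangles -/
theorem square_alg (p q b c d : WW n) :
    om (p + b) (p + q + c) + om (p + q + c) (q + d) =
      2 * om p q + (om p c + om b (p + q + c) + om (p + q) d + om c (q + d)) := by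
  simp only [om_add_left, om_add_right, om_self]
  ring

theorem square_bound {K s M : ℝ} (hK : 0 ≤ K) (hs : 0 ≤ s) (hs1 : s ≤ 1) (hM : 0 ≤ M) (p q b c d : WW n)
    (hp : ‖p‖ ≤ (1 + K) * M) (hq : ‖q‖ ≤ (1 + K) * M) (hb : ‖b‖ ≤ K * s * M) (hc : ‖c‖ ≤ K * s * M)
    (hd : ‖d‖ ≤ K * s * M) :
    |om p c + om b (p + q + c) + om (p + q) d + om c (q + d)| ≤ 40 * (1 + K) ^ 2 * s * M ^ 2 := by
  have hKs : K * s * M ≤ (1 + K) * s * M := by nlinarith [mul_nonneg hs hM]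
  have hKs2 : K * s * M ≤ (1 + K) * M := by
    have : K * s ≤ K := by nlinarith
    nlinarith [mul_nonneg hK hM]
  have hb' := hb.trans hKs
  have hc' := hc.trans hKs
  have hd' := hd.trans hKs
  have hc2 := hc.trans hKs2
  have hd2 := hd.trans hKs2
  have n1 : ‖p + q + c‖ ≤ 3 * ((1 + K) * M) := by
    have h1 := norm_add_le (p + q) c
    have h2 := norm_add_le p q
    linarith
  have n2 : ‖p + q‖ ≤ 2 * ((1 + K) * M) := by
    have h2 := norm_add_le p q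
    linarith
  have n3 : ‖q + d‖ ≤ 2 * ((1 + K) * M) := by
    have h2 := norm_add_le q d
    linarith
  have hP : 0 ≤ (1 + K) * M := by positivity
  have hQ : 0 ≤ (1 + K) * s * M := by positivity
  have t1 : |om p c| ≤ 4 * ((1 + K) * M) * ((1 + K) * s * M) :=
    (abs_om_le_norm p c).trans (by
      apply mul_le_mul _ hc' (norm_nonneg _) (by positivity)
      linarith)
  have t2 : |om b (p + q + c)| ≤ 4 * ((1 + K) * s * M) * (3 * ((1 + K) * M)) :=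
    (abs_om_le_norm _ _).trans (by
      apply mul_le_mul _ n1 (norm_nonneg _) (by positivity)
      linarith)
  have t3 : |om (p + q) d| ≤ 4 * (2 * ((1 + K) * M)) * ((1 + K) * s * M) :=
    (abs_om_le_norm _ _).trans (by
      apply mul_le_mul _ hd' (norm_nonneg _) (by positivity)
      linarith)
  have t4 : |om c (q + d)| ≤ 4 * ((1 + K) * s * M) * (2 * ((1 + K) * M)) :=
    (abs_om_le_norm _ _).trans (by
      apply mul_le_mul _ n3 (norm_nonneg _) (by positivity)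
      linarith)
  have a1 := abs_add_le (om p c + om b (p + q + c) + om (p + q) d) (om c (q + d))
  have a2 := abs_add_le (om p c + om b (p + q + c)) (om (p + q) d)
  have a3 := abs_add_le (om p c) (om b (p + q + c))
  have e : 40 * (1 + K) ^ 2 * s * M ^ 2 = 40 * (((1 + K) * M) * ((1 + K) * s * M)) := by ring
  rw [e]
  have hPQ : 0 ≤ ((1 + K) * M) * ((1 + K) * s * M) := by positivity
  linarith

/-- the near isotropy for vectors of length `R / 2` -/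
theorem iso_half {C K ε ρ R : ℝ} (hC : 0 < C) (hK : 0 < K) {ι : EE n → WW n} {h : EE n → ℝ} (hε : 0 < ε)
    (hε' : ε ≤ 1 / 100)
    (hY : ∀ (p q : EE n) (ρ : ℝ), p ≠ q → 0 < ρ →
      (∀ a b : EE n, ‖a - (1 / 2 : ℝ) • (p + q)‖ ≤ ‖q - p‖ / 2 →
        ‖b - (1 / 2 : ℝ) • (p + q)‖ ≤ ‖q - p‖ / 2 →
        |nm (ι a - ι b) - ρ * ‖a - b‖| ≤ ε * ρ * (‖q - p‖ / 2)) →
      |h q - h p - 1 / 2 * om (ι p) (ι q)| ≤ C * Real.sqrt ε * ρ ^ 2 * ‖q - p‖ ^ 2)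
    (hN : NearSim ε ι) (hρ : 0 < ρ) (hR : 0 < R) (x : EE n)
    (hb : ∀ a b : EE n, ‖a - x‖ ≤ R → ‖b - x‖ ≤ R → |nm (ι a - ι b) - ρ * ‖a - b‖| ≤ ε * ρ * R)
    (T : EE n →L[ℝ] WW n) (hT : ∀ a, ‖a - x‖ ≤ R → ‖ι a - (ι x + T (a - x))‖ ≤ K * Real.sqrt ε * ρ * R)
    (hTn : ∀ u, ‖T u‖ ≤ (1 + K) * ρ * ‖u‖) (u v : EE n) (hu : ‖u‖ = R / 2) (hv : ‖v‖ = R / 2) :
    |om (T u) (T v)| ≤ (16 * C + 20 * (1 + K) ^ 2) * Real.sqrt ε * ρ ^ 2 * R ^ 2 := by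
  have huv : ‖u + v‖ ≤ R := by
    have := norm_add_le u v
    linarith
  have m1 : ‖x - x‖ ≤ R := by rw [sub_self, norm_zero]; exact hR.le
  have m2 : ‖x + u - x‖ ≤ R := by rw [add_sub_cancel_left, hu]; linarith
  have m3 : ‖x + (u + v) - x‖ ≤ R := by rw [add_sub_cancel_left]; exact huv
  have m4 : ‖x + v - x‖ ≤ R := by rw [add_sub_cancel_left, hv]; linarith
  have d1 := side hC hε hε' hY hN hρ hR x hb x (x + u) m1 m2 (by rw [add_sub_cancel_left, hu])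
  have d2 := side hC hε hε' hY hN hρ hR x hb (x + u) (x + (u + v)) m2 m3 (by
    rw [show x + (u + v) - (x + u) = v by abel, hv])
  have d3 := side hC hε hε' hY hN hρ hR x hb (x + (u + v)) (x + v) m3 m4 (by
    rw [show x + v - (x + (u + v)) = - u by abel, norm_neg, hu])
  have d4 := side hC hε hε' hY hN hρ hR x hb (x + v) x m4 m1 (by
    rw [show x - (x + v) = - v by abel, norm_neg, hv])
  have hq := quad_sum (ι x) (ι (x + u)) (ι (x + (u + v))) (ι (x + v)) (h x) (h (x + u)) (h (x + (u + v))) (h (x + v))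
  have hS : |om (ι (x + u) - ι x) (ι (x + (u + v)) - ι x) + om (ι (x + (u + v)) - ι x) (ι (x + v) - ι x)| ≤
      32 * C * Real.sqrt ε * ρ ^ 2 * R ^ 2 := by
    rw [abs_le] at d1 d2 d3 d4 ⊢
    constructor
    · linarith [d1.1, d1.2, d2.1, d2.2, d3.1, d3.2, d4.1, d4.2]
    · linarith [d1.1, d1.2, d2.1, d2.2, d3.1, d3.2, d4.1, d4.2]
  have t2 := hT _ m2
  have t3 := hT _ m3
  have t4 := hT _ m4
  rw [add_sub_cancel_left] at t2 t3 t4
  rw [map_add] at t3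
  have e2 : ι (x + u) - ι x = T u + (ι (x + u) - (ι x + T u)) := by abel
  have e3 : ι (x + (u + v)) - ι x = T u + T v + (ι (x + (u + v)) - (ι x + (T u + T v))) := by abel
  have e4 : ι (x + v) - ι x = T v + (ι (x + v) - (ι x + T v)) := by abel
  rw [e2, e3, e4, square_alg] at hS
  have hs0 : 0 ≤ Real.sqrt ε := Real.sqrt_nonneg _
  have hs1 : Real.sqrt ε ≤ 1 := Real.sqrt_le_one.2 (by linarith)
  have hM : 0 ≤ ρ * R := by positivity
  have hTu : ‖T u‖ ≤ (1 + K) * (ρ * R) := by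
    refine (hTn u).trans ?_
    rw [hu]
    nlinarith [mul_pos hρ hR, mul_pos (mul_pos hK hρ) hR]
  have hTv : ‖T v‖ ≤ (1 + K) * (ρ * R) := by
    refine (hTn v).trans ?_
    rw [hv]
    nlinarith [mul_pos hρ hR, mul_pos (mul_pos hK hρ) hR]
  have hB := square_bound hK.le hs0 hs1 hM (T u) (T v) _ _ _ hTu hTv (by rw [← mul_assoc]; exact t2)
    (by rw [← mul_assoc]; exact t3) (by rw [← mul_assoc]; exact t4)
  have e5 : 40 * (1 + K) ^ 2 * Real.sqrt ε * (ρ * R) ^ 2 =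
      2 * (20 * (1 + K) ^ 2 * Real.sqrt ε * ρ ^ 2 * R ^ 2) := by ring
  have e6 : (16 * C + 20 * (1 + K) ^ 2) * Real.sqrt ε * ρ ^ 2 * R ^ 2 =
      16 * C * Real.sqrt ε * ρ ^ 2 * R ^ 2 + 20 * (1 + K) ^ 2 * Real.sqrt ε * ρ ^ 2 * R ^ 2 := by ring
  rw [e5] at hB
  rw [e6]
  rw [abs_le] at hS hB ⊢
  constructor
  · linarith [hS.1, hS.2, hB.1, hB.2]
  · linarith [hS.1, hS.2, hB.1, hB.2]

/-- the near isotropy in general -/
theorem iso_all {c R : ℝ} (hR : 0 < R) (T : EE n →L[ℝ] WW n)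
    (h : ∀ u v : EE n, ‖u‖ = R / 2 → ‖v‖ = R / 2 → |om (T u) (T v)| ≤ c * R ^ 2) (u v : EE n) :
    |om (T u) (T v)| ≤ 4 * c * ‖u‖ * ‖v‖ := by
  rcases eq_or_ne u 0 with rfl | hu
  · simp
  rcases eq_or_ne v 0 with rfl | hv
  · simp
  have hu0 : 0 < ‖u‖ := norm_pos_iff.2 hu
  have hv0 : 0 < ‖v‖ := norm_pos_iff.2 hv
  have key : ∀ w : EE n, 0 < ‖w‖ → ‖(R / 2 / ‖w‖) • w‖ = R / 2 := by
    intro w hw
    rw [norm_smul, Real.norm_eq_abs, abs_of_pos (by positivity)]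
    field_simp
  have h1 := h _ _ (key u hu0) (key v hv0)
  rw [map_smul, map_smul, om_smul_left, om_smul_right, abs_mul, abs_mul, abs_of_pos (by positivity),
    abs_of_pos (by positivity)] at h1
  have h2 : |om (T u) (T v)| = (4 * ‖u‖ * ‖v‖ / R ^ 2) * (R / 2 / ‖u‖ * (R / 2 / ‖v‖ * |om (T u) (T v)|)) := by
    field_simp
    ring
  rw [h2]
  calc (4 * ‖u‖ * ‖v‖ / R ^ 2) * (R / 2 / ‖u‖ * (R / 2 / ‖v‖ * |om (T u) (T v)|))
      ≤ (4 * ‖u‖ * ‖v‖ / R ^ 2) * (c * R ^ 2) := mul_le_mul_of_nonneg_left h1 (by positivity)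
    _ = 4 * c * ‖u‖ * ‖v‖ := by field_simp

/-- Module APX -/
theorem hAPX (hPO0 : StPO0) (hNIS : StNIS) (hYNG : StYNG) : StAPX := by
  intro n
  obtain ⟨K, hK, hnis⟩ := hNIS n
  obtain ⟨C, ε₁, hC, hε₁, hyng⟩ := hYNG n
  refine ⟨K + 4 * (16 * C + 20 * (1 + K) ^ 2), min ε₁ (1 / 100), by positivity, lt_min hε₁ (by norm_num), ?_⟩
  intro ε ι hε hεle hι hiso hN x R hR
  have hε1 : ε ≤ ε₁ := hεle.trans (min_le_left _ _)
  have hε' : ε ≤ 1 / 100 := hεle.trans (min_le_right _ _)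
  obtain ⟨h, hh, hd⟩ := potential hPO0 hι hiso
  have hY := hyng ε ι h hε hε1 hι hh hd hN
  obtain ⟨ρ, hρ, hb⟩ := hN x R hR
  obtain ⟨T, hT, hip⟩ := hnis ε ι x R ρ hε (by linarith) hR hρ hb
  have hs0 : 0 ≤ Real.sqrt ε := Real.sqrt_nonneg _
  have hs1 : Real.sqrt ε ≤ 1 := Real.sqrt_le_one.2 (by linarith)
  have hεs : ε ≤ Real.sqrt ε := by
    have := Real.mul_self_sqrt hε.le
    nlinarith
  have hTn : ∀ u, ‖T u‖ ≤ (1 + K) * ρ * ‖u‖ := by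
    intro u
    refine (norm_le_nm _).trans ?_
    apply le_of_sq_le_sq _ (by positivity)
    have h1 := (abs_le.1 (hip u u)).2
    rw [ip_self_eq, real_inner_self_eq_norm_sq] at h1
    have h2 : K * ε * ρ ^ 2 * ‖u‖ * ‖u‖ ≤ K * (ρ ^ 2 * ‖u‖ ^ 2) := by
      have : K * ε ≤ K := by nlinarith
      have h3 : 0 ≤ ρ ^ 2 * ‖u‖ ^ 2 := by positivity
      calc K * ε * ρ ^ 2 * ‖u‖ * ‖u‖ = (K * ε) * (ρ ^ 2 * ‖u‖ ^ 2) := by ring
        _ ≤ K * (ρ ^ 2 * ‖u‖ ^ 2) := mul_le_mul_of_nonneg_right this h3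
    have h3 : 0 ≤ ρ ^ 2 * ‖u‖ ^ 2 := by positivity
    have h4 : 0 ≤ K ^ 2 * (ρ ^ 2 * ‖u‖ ^ 2) := by positivity
    have h5 : 0 ≤ K * (ρ ^ 2 * ‖u‖ ^ 2) := by positivity
    calc nm (T u) ^ 2 ≤ ρ ^ 2 * ‖u‖ ^ 2 + K * (ρ ^ 2 * ‖u‖ ^ 2) := by linarith
      _ ≤ ((1 + K) * ρ * ‖u‖) ^ 2 := by
        rw [show ((1 + K) * ρ * ‖u‖) ^ 2 = ρ ^ 2 * ‖u‖ ^ 2 + 2 * (K * (ρ ^ 2 * ‖u‖ ^ 2)) +
          K ^ 2 * (ρ ^ 2 * ‖u‖ ^ 2) by ring]
        linarith
  have hE : 0 ≤ 16 * C + 20 * (1 + K) ^ 2 := by positivity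
  refine ⟨ρ, T, hρ, fun a ha => (hT a ha).trans ?_, fun u v => (hip u v).trans ?_, fun u v => ?_⟩
  · have h1 : 0 ≤ Real.sqrt ε * ρ * R := by positivity
    calc K * Real.sqrt ε * ρ * R = K * (Real.sqrt ε * ρ * R) := by ring
      _ ≤ (K + 4 * (16 * C + 20 * (1 + K) ^ 2)) * (Real.sqrt ε * ρ * R) :=
        mul_le_mul_of_nonneg_right (by linarith) h1
      _ = _ := by ring
  · have h1 : 0 ≤ ρ ^ 2 * ‖u‖ * ‖v‖ := by positivity
    have h2 : K * ε ≤ (K + 4 * (16 * C + 20 * (1 + K) ^ 2)) * Real.sqrt ε := by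
      apply mul_le_mul (by linarith) hεs hε.le (by linarith)
    calc K * ε * ρ ^ 2 * ‖u‖ * ‖v‖ = (K * ε) * (ρ ^ 2 * ‖u‖ * ‖v‖) := by ring
      _ ≤ ((K + 4 * (16 * C + 20 * (1 + K) ^ 2)) * Real.sqrt ε) * (ρ ^ 2 * ‖u‖ * ‖v‖) :=
        mul_le_mul_of_nonneg_right h2 h1
      _ = _ := by ring
  · have h1 := iso_all (c := (16 * C + 20 * (1 + K) ^ 2) * Real.sqrt ε * ρ ^ 2) hR T
      (fun u v hu hv => iso_half hC hK hε hε' hY hN hρ hR x hb T hT hTn u v hu hv) u v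
    refine h1.trans ?_
    have h2 : 0 ≤ Real.sqrt ε * ρ ^ 2 * ‖u‖ * ‖v‖ := by positivity
    calc 4 * ((16 * C + 20 * (1 + K) ^ 2) * Real.sqrt ε * ρ ^ 2) * ‖u‖ * ‖v‖
        = (4 * (16 * C + 20 * (1 + K) ^ 2)) * (Real.sqrt ε * ρ ^ 2 * ‖u‖ * ‖v‖) := by ring
      _ ≤ (K + 4 * (16 * C + 20 * (1 + K) ^ 2)) * (Real.sqrt ε * ρ ^ 2 * ‖u‖ * ‖v‖) :=
        mul_le_mul_of_nonneg_right (by linarith) h2
      _ = _ := by ring

end Pool.Agent.Helper94.LK
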